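import Pool.Agent.H919R4.ZS.Final

/-!
The zero-in-the-spectrum conjecture for aspherical complexes of dimension at most two, and more
generally for all finite aspherical complexes `M` with `H^k(π; ℤ[π]) ≠ 0` for some `k ≤ 2`,
`π = π₁(M)`. A finite aspherical CW complex enters through the cellular chain complex of its
universal cover, which is a finite free resolution of the trivial `ℤ[π]`-module `ℤ`
(`Pool.Agent.H919R4.ZS.FinRes`). The definitions are in `Pool.Agent.H919R4.ZS.Defs`.
-/

set_option autoImplicit false

namespace Pool.Agent.Results.MP_9f173d_gt.DimensionTwo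

open Pool.Agent.H919R4.ZS

universe u

/-- Let `X` be a finite free resolution of `ℤ` over `ℤ[G]`. If its length is at most two, or if
`H^k(G; ℤ[G]) ≠ 0` for some `k ≤ 2`, then the homology of `X` with coefficients in the reduced
group `C*`-algebra `C*_r(G)` does not vanish in some degree `i ≤ 2`. -/
theorem result (G : Type u) [Group G] (X : FinRes G)
    (h : X.len ≤ 2 ∨ ∃ k ≤ 2, Nontrivial (X.cohomology k)) :
    ∃ i ≤ 2, Nontrivial (X.homology (toRed G) i) :=
  main X h

end Pool.Agent.Results.MP_9f173d_gt.DimensionTwo
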